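import Pool.Agent.H936.R.Fin

/-!
# Families of abelian varieties with arbitrary monodromy near a fibre with complex multiplication

Let `A_x` be a polarised family of abelian varieties of dimension `g ≥ 1` over `ℚ`, over an open part of the line, and
`P(x) = C Z(x)` the period matrix of `h^1(A_x)` near `x = 0`: `Z` is a matrix of G-functions over `ℚ`, and `C` is the matrix
of the periods of `A_0`. The monodromy is **arbitrary**: let `𝔤` be the Lie algebra over `ℚ` of the (Zariski closure of the)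
monodromy group, on `V = H^1_B`. It is semisimple without compact factors over `ℚ` (Deligne); all types which occur in
Shimura varieties of Hodge type are possible, with all multiplicities (symplectic, orthogonal with the spin
representation, unitary, with real or quaternionic multiplication, products of these, and constant parts).

We assume that `A_0` has complex multiplication. Let `M_0` be another motive (or any de Rham-Betti object) over `ℚ` with a
commutative de Rham-Betti group, for example a sum of abelian varieties with complex multiplication (also `A_0`) and of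
motives `ℚ(k)`, with period matrix `C₀`, and

  `c = C₀ ⊕ P(1 / t_1) ⊕ … ⊕ P(1 / t_N)`,

the period matrix of `M_0 ⊕ ⨁ h^1(A_{1 / t_j})`, which is the fibre of the `N`-th power of the family over
`s = (1 / t_1, …, 1 / t_N)`, and `M_0`.

**Theorem.** Let `D`, `N`, `C₀` be given. There are `G` (which depends only on the system of differential equations) and
`E` such that for **all** `t_1, …, t_N` which are distinct, congruent modulo `G`, with `(t_i - t_j + 2) ^ E ≤ t_j` (for
`N = 1` these are all `t ≥ 2 ^ E`), **all** number fields `K` with `[K : ℚ] ≤ D` and **all** `K`-subtorsors `S` of the torsor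
of isomorphisms from de Rham to Betti cohomology with `c ∈ S` whose group is defined over `ℚ` (for example the torsor
`Ω^dRB` of the isomorphisms which respect the de Rham-Betti classes over `K`, or the motivic torsor): `S` is stable
under `1 × exp 𝔤_ℂ × … × exp 𝔤_ℂ`, so under the connected monodromy group of the `N`-th power of the family.

So the torsors of relations of the fibres are as large as the family allows: this is the torsor form of Q1 for these
points `s`, and the points `s` are outside the Hodge locus: all Hodge classes in the tensor spaces of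
`h^1(A_{1 / t_j})`, `M_0` are de Rham-Betti classes (over a number field; Deligne, Blasius) and so they are invariant under
the monodromy group. In the known results on all fibres with large parameters (`IntegralPointsAnyMonodromy`,
`AllFibresFewCentralPeriods`) the number of independent central periods has to be smaller than the codimension of all
proper subalgebras of `𝔤_ℂ`, which is `m` if `𝔤` has a factor of type `A_m`. So families with real multiplication
(`𝔤 = 𝔰𝔩_2 (F)`, `F` totally real of degree `g`), for example the jacobians of `y² = D_p (x, z) + 1` with the polynomials of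
Dickson, `D_p (x, 0) = x ^ p` (`g = (p - 1) / 2`, complex multiplication by the `p`-th roots of unity at `z = 0`), and
families with unitary monodromy groups are not covered, while here there is no condition on the number of the periods.
`NearSpecialFibres` (problem `MP_f11a48_ag`) is on `𝔤 = 𝔰𝔭_2g` (and arbitrary special fibres).

**Hypotheses** (they are satisfied for all families of abelian varieties with a fibre with complex multiplication).
`MonodromyAlgebra`: `𝔤` is closed under commutators, perfect, with nondegenerate trace form (so it is semisimple), contained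
in the symplectic algebra; each ideal which is not zero contains `x ≠ 0` with `tr (x²) ≥ 0` (no compact factors); the
elements of `𝔤` are infinitesimal symmetries of `P(x)`. `Saturated`: `ℰ` is a set of rational matrices which commute
with `𝔤`, and all rational matrices which commute with `𝔤` and `ℰ` are in `ℰ`. Take for `ℰ` the endomorphisms of the generic
fibre. (As `A_0` has complex multiplication the Mumford-Tate group of the generic fibre is the product of the connected
monodromy group and a torus `T'` in its centre, and `ℰ` is the centraliser of `T'` in the algebra `𝒜` of all matrices which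
commute with `𝔤`; the centraliser of `ℰ` in `𝒜` is generated by `T'` and the centre of `𝒜`, so it is contained in `ℰ`.)
`Horizontal`: the `e ∈ ℰ` respect the de Rham structure of the fibre, so they are endomorphisms of it, and `𝔤` is a de
Rham-Betti substructure of `End h^1`: the matrix `P⁻¹ x P` is a linear combination of algebraic matrices of the same kind
(`𝔤` is the fibre of a subconnection over `ℚ̄`, the Lie algebra of the differential Galois group).

**Proof** (`Pool/Agent/H936/R`). By the theorem on the linear independence of values of G-functions at many points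
(`Y118/HX/WinM`) and the ultraproduct `ℂ^*` there is for each `X` in `𝔤` and each `j` a derivation `δ` of `ℂ^*` over `ℚ^*`
with `δ(Z_j) Z_j⁻¹ = C⁻¹ X C`, `δ(Z_i) = 0` for `i ≠ j` (`Helper880_R3`, `pts`); the limit `L` of the Lie algebras of the groups
of `S` is normalised by `(δ(C₀) C₀⁻¹, F + X e_j)`, `F = δ(C) C⁻¹`. We have no control over `F`, but `F` commutes with the
complex multiplications, and it normalises `𝔤`: the projections of the `F` to `𝔤` form a toral
subalgebra `𝔱`. So if `𝔩` is the projection of the `j`-th part of `L` to `𝔤` then `𝔤 = 𝔫(𝔩) + 𝔱` (`𝔫` the normaliser). The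
main new result is **Theorem T** (`ThmT`, `thmT_mat`): if `𝔤` is a Lie algebra with a nondegenerate invariant form, `𝔩` a
subspace on which the form is nondegenerate and `𝔤 = 𝔫(𝔩) + 𝔱` with a toral subalgebra `𝔱`, then `𝔩` is an ideal. (The
projection `P` to `𝔩` is a symmetric operator; the form `(P x, y)` on the weight spaces of `𝔱` is shown to be invariant.)
The hypothesis on the form is satisfied for `𝔩` (`TN_lC`), and `𝔩` contains all ideals (`full`), by the theorem of Schneider
and Lang in the form of Bost (`Y102`) and the positivity of the polarisation: here we use that the groups are defined over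
`ℚ`, and that `𝔤` has no compact factors. Finally the blocks are independent: two derivations which move the `j`-th block
have a commutator in the `j`-th block only, and if this were not sufficient a quotient of `𝔤` would be the sum of two
abelian subalgebras, which is impossible by the theorem of Ito (`ito`, `ito_U`).

Nothing is assumed about periods: `AbVar` is the description of an abelian variety over `ℚ̄` by theta functions
(`Pool/Agent/Y102/AVDefs.lean` explains why every abelian variety has it).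
-/

set_option autoImplicit false

open PowerSeries Filter
open scoped Matrix

namespace Pool.Agent.Results.MP_5591bc_ag.NearComplexMultiplication

open Pool.Agent.Y102 (AbVar riemannForm)

/-! ### G-functions -/

/-- an integer polynomial as a power series with rational coefficients -/
noncomputable def toQ (P : Polynomial ℤ) : PowerSeries ℚ := ((P.map (Int.castRingHom ℚ) : Polynomial ℚ) : PowerSeries ℚ)

/-- the power series `P(u^e)` -/
noncomputable def atPow (e : ℕ) (P : Polynomial ℤ) : PowerSeries ℂ :=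
  ((Polynomial.expand ℂ e (P.map (Int.castRingHom ℂ)) : Polynomial ℂ) : PowerSeries ℂ)

/-- the matrices `G_s` over `ℤ[x]` with `T^s y^(s) = G_s y` for all solutions `y` of `T y' = A y` -/
noncomputable def iter {r : ℕ} (T : Polynomial ℤ) (A : Fin r → Fin r → Polynomial ℤ) : ℕ → Fin r → Fin r → Polynomial ℤ
  | 0 => fun i j => if i = j then 1 else 0
  | s + 1 => fun i j => T * Polynomial.derivative (iter T A s i j) + ∑ l, iter T A s i l * A l j -
      (s : Polynomial ℤ) * (Polynomial.derivative T * iter T A s i j)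

/-- The system `T y' = A y` has a fundamental matrix of solutions of the form `u^(-M) ∑_n Φ_n(u) (log u)^n` with
`u^e = x` and convergent power series `Φ_n`: the point `0` is regular or a regular singularity with rational
exponents. -/
def QuasiUnipotent {r : ℕ} (T : Polynomial ℤ) (A : Fin r → Fin r → Polynomial ℤ) : Prop :=
  ∃ (e M : ℕ) (K : ℝ) (Φ : Matrix (Fin r) (Fin r) (Polynomial (PowerSeries ℂ))), 1 ≤ e ∧ Φ.det ≠ 0 ∧
    (∀ i j n m, ‖coeff m ((Φ i j).coeff n)‖ ≤ K ^ (m + 1)) ∧
    ∀ i j n, atPow e T * (X * PowerSeries.derivative ℂ ((Φ i j).coeff n) +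
        ((n : PowerSeries ℂ) + 1) * (Φ i j).coeff (n + 1) - (M : PowerSeries ℂ) * (Φ i j).coeff n) =
      (e : PowerSeries ℂ) * X ^ e * ∑ l, atPow e (A i l) * (Φ l j).coeff n

/-- `h_1, ..., h_r` are G-functions with rational coefficients which solve the differential system `T y' = A y`, with
the conditions of Siegel and Galochkin, and `0` is a regular point or a regular singularity with rational exponents of
the system. -/
structure GFamily {r : ℕ} (T : Polynomial ℤ) (A : Fin r → Fin r → Polynomial ℤ) (h : Fin r → PowerSeries ℚ) : Prop where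
  /-- the denominator is not zero -/
  T_ne : T ≠ 0
  /-- the differential equations -/
  ode : ∀ i, toQ T * PowerSeries.derivative ℚ (h i) = ∑ j, toQ (A i j) * h j
  /-- the coefficients have geometric growth -/
  size : ∃ C : ℝ, ∀ i m, |((coeff m (h i) : ℚ) : ℝ)| ≤ C ^ (m + 1)
  /-- the common denominators of the coefficients have geometric growth -/
  den : ∃ C : ℝ, ∀ m : ℕ, ∃ d : ℕ, 0 < d ∧ (d : ℝ) ≤ C ^ (m + 1) ∧ ∀ i, ∀ j ≤ m, ∃ a : ℤ, (d : ℚ) * coeff j (h i) = a
  /-- Galochkin's condition: the common denominators of the matrices `G_s / s!` have geometric growth -/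
  galochkin : ∃ C : ℝ, ∀ m : ℕ, ∃ d : ℕ, 0 < d ∧ (d : ℝ) ≤ C ^ (m + 1) ∧ ∀ s ≤ m, ∀ i j,
    ∃ H : Polynomial ℤ, (d : Polynomial ℤ) * iter T A s i j = (s.factorial : Polynomial ℤ) * H
  /-- the local exponents at `0` are rational and the singularity is regular -/
  regular : QuasiUnipotent T A

section family
variable {n : ℕ}

/-- the entries of a matrix -/
def entries (Z : Matrix (Fin n) (Fin n) (PowerSeries ℚ)) : Fin (n * n) → PowerSeries ℚ := fun a =>
  Z (finProdFinEquiv.symm a).1 (finProdFinEquiv.symm a).2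

/-- rational matrices as complex matrices -/
def toC (M : Matrix (Fin n) (Fin n) ℚ) : Matrix (Fin n) (Fin n) ℂ := M.map fun x : ℚ => (x : ℂ)

/-- the matrix `Z(1 / t)` -/
noncomputable def value (Z : Matrix (Fin n) (Fin n) (PowerSeries ℚ)) (t : ℕ) : Matrix (Fin n) (Fin n) ℂ :=
  Matrix.of fun i j => ((∑' k : ℕ, ((coeff k (Z i j) : ℚ) : ℝ) * (1 / (t : ℝ)) ^ k : ℝ) : ℂ)

/-- the matrix of power series with complex coefficients -/
noncomputable def overC (Z : Matrix (Fin n) (Fin n) (PowerSeries ℚ)) : Matrix (Fin n) (Fin n) (PowerSeries ℂ) :=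
  Z.map (PowerSeries.map (algebraMap ℚ ℂ))

/-- `X` is an infinitesimal symmetry of `Z`: for all polynomial relations `R(x, Z(x)) = 0` over `ℂ[x]` the derivative of
`R(x, (1 + ε X) Z(x))` at `ε = 0` is zero. -/
def Symmetry (Z : Matrix (Fin n) (Fin n) (PowerSeries ℚ)) (X : Matrix (Fin n) (Fin n) ℂ) : Prop :=
  ∀ R : MvPolynomial (Fin n × Fin n) (Polynomial ℂ), MvPolynomial.aeval (fun b => overC Z b.1 b.2) R = 0 →
    ∑ b, MvPolynomial.aeval (fun b => overC Z b.1 b.2) (MvPolynomial.pderiv b R) *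
      (X.map (PowerSeries.C (R := ℂ)) * overC Z) b.1 b.2 = 0

/-- The complex span of a space of rational matrices. -/
def complexSpan (𝔤 : Submodule ℚ (Matrix (Fin n) (Fin n) ℚ)) : Submodule ℂ (Matrix (Fin n) (Fin n) ℂ) :=
  Submodule.span ℂ {Y | ∃ X ∈ 𝔤, Y = toC X}

/-- **The Lie algebra of the monodromy group**: `𝔤` is a Lie algebra over `ℚ`, it is semisimple (perfect, with
nondegenerate trace form) and symplectic, it has no compact ideals, and its elements (on the Betti side) are infinitesimal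
symmetries of the matrix `P(x) = C Z(x)` of the periods. -/
structure MonodromyAlgebra (Z : Matrix (Fin n) (Fin n) (PowerSeries ℚ)) (C : Matrix (Fin n) (Fin n) ℂ)
    (H : Matrix (Fin n) (Fin n) ℚ) (𝔤 : Submodule ℚ (Matrix (Fin n) (Fin n) ℚ)) : Prop where
  /-- a Lie algebra -/
  bracket : ∀ x ∈ 𝔤, ∀ y ∈ 𝔤, x * y - y * x ∈ 𝔤
  /-- the elements are sums of commutators -/
  perfect : ∀ x ∈ 𝔤, x ∈ Submodule.span ℚ {z | ∃ a ∈ 𝔤, ∃ b ∈ 𝔤, z = a * b - b * a}
  /-- the trace form is nondegenerate -/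
  trace_form : ∀ x ∈ 𝔤, (∀ y ∈ 𝔤, Matrix.trace (x * y) = 0) → x = 0
  /-- the polarisation -/
  symplectic : ∀ x ∈ 𝔤, x * H + H * xᵀ = 0
  /-- no compact ideals: the trace form is not negative definite on any ideal which is not zero -/
  noncompact : ∀ I : Submodule ℚ (Matrix (Fin n) (Fin n) ℚ), I ≤ 𝔤 → (∀ x ∈ 𝔤, ∀ y ∈ I, x * y - y * x ∈ I) → I ≠ ⊥ →
    ∃ x ∈ I, x ≠ 0 ∧ 0 ≤ Matrix.trace (x * x)
  /-- infinitesimal symmetries of the relations between the periods -/
  symmetry : ∀ x ∈ 𝔤, Symmetry Z (C⁻¹ * toC x * C)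

/-- `ℰ` consists of rational matrices which commute with `𝔤`, and all rational matrices which commute with `𝔤` and with
`ℰ` are in `ℰ`. -/
def Saturated (𝔤 : Submodule ℚ (Matrix (Fin n) (Fin n) ℚ)) (ℰ : Set (Matrix (Fin n) (Fin n) ℚ)) : Prop :=
  (∀ e ∈ ℰ, ∀ x ∈ 𝔤, e * x = x * e) ∧ ∀ z, (∀ x ∈ 𝔤, z * x = x * z) → (∀ e ∈ ℰ, z * e = e * z) → z ∈ ℰ

/-- The rational matrix `X` on the Betti side respects the de Rham structure over `ℚ̄`: it is an endomorphism of the de
Rham-Betti structure with period matrix `P`. (For the periods of an abelian variety `A` these are the elements of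
`End (A) ⊗ ℚ`, `Pool.Agent.Y102.AbVar.hodge_end`.) -/
def Respects (P : Matrix (Fin n) (Fin n) ℂ) (X : Matrix (Fin n) (Fin n) ℚ) : Prop :=
  ∀ a b, IsAlgebraic ℚ ((P⁻¹ * toC X * P) a b)

/-- The elements of `ℰ` are endomorphisms of the fibre with period matrix `P`, and `𝔤` is a de Rham-Betti substructure of
its endomorphism space: on the de Rham side `𝔤` is spanned by matrices with algebraic entries. -/
def Horizontal (𝔤 : Submodule ℚ (Matrix (Fin n) (Fin n) ℚ)) (ℰ : Set (Matrix (Fin n) (Fin n) ℚ))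
    (P : Matrix (Fin n) (Fin n) ℂ) : Prop :=
  (∀ e ∈ ℰ, Respects P e) ∧
  ∀ x ∈ 𝔤, P⁻¹ * toC x * P ∈ Submodule.span ℂ {Y | (∀ a b, IsAlgebraic ℚ (Y a b)) ∧ P * Y * P⁻¹ ∈ complexSpan 𝔤}

/-- Complex multiplication: the fibre with period matrix `C` has an endomorphism with `n = 2 g` different eigenvalues. -/
def HasCM (C : Matrix (Fin n) (Fin n) ℂ) : Prop := ∃ X : Matrix (Fin n) (Fin n) ℚ, X.charpoly.Separable ∧ Respects C X

end family

/-- the numbers `t_j` are distinct and congruent modulo `G`, and `(t_i - t_j + 2)^E ≤ t_j` -/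
def InWindow (G E : ℕ) {N : ℕ} (t : Fin N → ℕ) : Prop :=
  Function.Injective t ∧ (∀ i j, t i ≡ t j [MOD G]) ∧ ∀ i j, (t i - t j + 2) ^ E ≤ t j

/-! ### Abelian varieties -/

section abelian
variable {g : ℕ} (A : AbVar g)

/-- The matrix of the periods of `A`: the integrals over the basis of the lattice of the invariant differentials `d z k`
and of the differentials of the second kind `d (∂ k (log θ 0))`, a basis of `H^1_dR (A / ℚ̄)`. -/
noncomputable def periods : Matrix (Fin (2 * g)) (Fin g ⊕ Fin g) ℂ := Matrix.of fun a i => A.dR i (Pi.single a 1)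

/-- `P` is the matrix of the comparison isomorphism `H^1_dR → H^1_B` of `A` for some basis `R` of the rational homology, in
which the Riemann form has the matrix `H` up to a rational factor, and some basis of the de Rham cohomology over `ℚ̄`
(given by `T`). -/
def Presents (H : Matrix (Fin (2 * g)) (Fin (2 * g)) ℚ) (P : Matrix (Fin (2 * g)) (Fin (2 * g)) ℂ) : Prop :=
  ∃ (R : Matrix (Fin (2 * g)) (Fin (2 * g)) ℚ) (T : Matrix (Fin g ⊕ Fin g) (Fin (2 * g)) ℂ) (q : ℚ),
    IsUnit R ∧ IsUnit P ∧ (∀ i j, IsAlgebraic ℚ (T i j)) ∧ q ≠ 0 ∧ P = toC R * periods A * T ∧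
    ∀ a b, ∑ c, ∑ d, (R a c : ℂ) * riemannForm A.lam A.η (A.lam c) (A.lam d) * (R b d : ℂ) = (q : ℂ) * (H a b : ℂ)

end abelian

/-! ### Torsors -/

/-- `S` is (the set of complex points of) a `K`-subtorsor of `GL_B = Iso (M_dR, M_B)`: it is closed under `x y⁻¹ z`, and
it is defined in `GL_B` by polynomials with coefficients in `K`. -/
def IsSubtorsor (K : Subfield ℂ) {B : Type} [Fintype B] [DecidableEq B] (S : Set (Matrix B B ℂ)) : Prop :=
  (∀ x ∈ S, ∀ y ∈ S, ∀ z ∈ S, x * y⁻¹ * z ∈ S) ∧ ∃ I : Set (MvPolynomial (B × B) K), ∀ x : Matrix B B ℂ, x ∈ S ↔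
    IsUnit x ∧ ∀ p ∈ I, MvPolynomial.eval (fun b => x b.1 b.2) (MvPolynomial.map (algebraMap K ℂ) p) = 0

/-- The group of the torsor `S` on the Betti side, the set of the `x y⁻¹` with `x`, `y` in `S`, is defined over `ℚ`: it is
stable under all automorphisms of the field of complex numbers. -/
def RationalGroup {B : Type} [Fintype B] [DecidableEq B] (S : Set (Matrix B B ℂ)) : Prop :=
  ∀ σ : ℂ ≃+* ℂ, ∀ x ∈ S, ∀ y ∈ S, ∃ x' ∈ S, ∃ y' ∈ S, (x * y⁻¹).map σ = x' * y'⁻¹

/-- The object with period matrix `C₀` has a commutative de Rham-Betti group: `C₀` is contained in a subtorsor over a field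
of algebraic numbers whose group `{x y⁻¹}` is commutative. -/
def Commutative {r : ℕ} (C₀ : Matrix (Fin r) (Fin r) ℂ) : Prop :=
  ∃ (K : Subfield ℂ) (S : Set (Matrix (Fin r) (Fin r) ℂ)), (∀ x ∈ K, IsAlgebraic ℚ x) ∧ IsSubtorsor K S ∧ C₀ ∈ S ∧
    ∀ x ∈ S, ∀ y ∈ S, ∀ z ∈ S, x * y⁻¹ * z = z * y⁻¹ * x

section
variable {n N r : ℕ}

/-- the block matrix `x ⊕ X_1 ⊕ … ⊕ X_N` -/
def total (x : Matrix (Fin r) (Fin r) ℂ) (X : Fin N → Matrix (Fin n) (Fin n) ℂ) :
    Matrix (Fin r ⊕ (Fin n × Fin N)) (Fin r ⊕ (Fin n × Fin N)) ℂ :=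
  Matrix.fromBlocks x 0 0 (Matrix.blockDiagonal X)

/-- The conclusion for one tuple of parameters; `P j` is the period matrix of the fibre. -/
def Good (D : ℕ) (C₀ : Matrix (Fin r) (Fin r) ℂ) (𝔤 : Submodule ℚ (Matrix (Fin n) (Fin n) ℚ))
    (P : Fin N → Matrix (Fin n) (Fin n) ℂ) : Prop :=
  ∀ K : Subfield ℂ, FiniteDimensional ℚ K → Module.finrank ℚ K ≤ D →
  ∀ S : Set (Matrix (Fin r ⊕ (Fin n × Fin N)) (Fin r ⊕ (Fin n × Fin N)) ℂ), IsSubtorsor K S → RationalGroup S →
  total C₀ P ∈ S →
  ∀ X : Fin N → Matrix (Fin n) (Fin n) ℂ, (∀ j, X j ∈ complexSpan 𝔤) → ∀ x ∈ S,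
    total 1 (fun j => NormedSpace.exp (X j)) * x ∈ S

end

/-! ### Auxiliary lemmas -/

theorem iter_eq {r : ℕ} (T : Polynomial ℤ) (A : Fin r → Fin r → Polynomial ℤ) (s : ℕ) :
    iter T A s = Pool.Agent.Y120.GH.itm T A s := by
  induction s with
  | zero => rfl
  | succ s ih =>
    funext i j
    rw [iter, Pool.Agent.Y120.GH.itm, ih]

theorem qu_eq {r : ℕ} {T : Polynomial ℤ} {A : Fin r → Fin r → Polynomial ℤ} (h : QuasiUnipotent T A) :
    Pool.Agent.Y120.GH.QU0 T A := by
  obtain ⟨e, M, K, Φ, he, hdet, hc, heq⟩ := h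
  have he0 : e ≠ 0 := by omega
  refine ⟨e, he0, M, K, Φ, hc, fun i j n => ?_, hdet⟩
  have h1 := heq i j n
  simp only [atPow] at h1
  rw [Pool.Agent.Y120.GH.expand_poly he0]
  simp only [Pool.Agent.Y120.GH.expand_poly he0]
  exact h1

theorem gal_eq {r : ℕ} {T : Polynomial ℤ} {A : Fin r → Fin r → Polynomial ℤ} {h : Fin r → PowerSeries ℚ}
    (hG : GFamily T A h) : ∃ C : ℝ, ∀ m, ∃ d : ℕ, 0 < d ∧ (d : ℝ) ≤ C ^ (m + 1) ∧ ∀ s ≤ m, ∀ i j, ∃ H : Polynomial ℤ,
      (d : Polynomial ℤ) * Pool.Agent.Y120.GH.itm T A s i j = (s.factorial : Polynomial ℤ) * H := by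
  obtain ⟨C, hC⟩ := hG.galochkin
  refine ⟨C, fun m => ?_⟩
  obtain ⟨d, h1, h2, h3⟩ := hC m
  refine ⟨d, h1, h2, fun s hs i' j' => ?_⟩
  rw [← iter_eq]
  exact h3 s hs i' j'

theorem map_eq {n : ℕ} (M : Matrix (Fin n) (Fin n) ℚ) : toC M = Pool.Agent.Y119.HY.cm M := by
  ext i j
  rw [Pool.Agent.Y119.HY.cm_apply]
  rfl

theorem sym_inf {n : ℕ} {Z : Matrix (Fin n) (Fin n) (PowerSeries ℚ)} {X : Matrix (Fin n) (Fin n) ℂ} (h : Symmetry Z X) :
    Pool.Agent.Helper880_R3.Inf Z X := by
  intro R hR
  refine Eq.trans ?_ (h R hR)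
  unfold Pool.Agent.Helper880_R3.DX
  rw [map_sum]
  refine Finset.sum_congr rfl fun b _ => ?_
  rw [map_mul, map_sum, Matrix.mul_apply]
  refine congrArg₂ (· * ·) rfl (Finset.sum_congr rfl fun l _ => ?_)
  rw [map_mul, MvPolynomial.aeval_C, MvPolynomial.aeval_X, Matrix.map_apply, Matrix.map_apply]
  have h1 : algebraMap (Polynomial ℂ) (PowerSeries ℂ) (Polynomial.C (X b.1 l)) = PowerSeries.C (X b.1 l) :=
    Polynomial.coe_C _
  rw [h1]
  rfl

theorem pres_of {g : ℕ} {A : AbVar g} {H : Matrix (Fin (2 * g)) (Fin (2 * g)) ℚ}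
    {P : Matrix (Fin (2 * g)) (Fin (2 * g)) ℂ} (h : Presents A H P) : ∃ R, Pool.Agent.H936.SL.Pres A H P R := by
  obtain ⟨R, T, q, hR, hP, hT, hq, hPT, hE⟩ := h
  set e := Pool.Agent.R917.eqv g with he
  set Ts : Matrix (Fin (2 * g)) (Fin (2 * g)) ℂ := T.submatrix e.symm id with hTs
  have h1 : P = Pool.Agent.Y119.HY.cm R * Pool.Agent.R917.PM A * Ts := by
    rw [hPT, map_eq, Matrix.mul_assoc, Matrix.mul_assoc]
    congr 1
    ext a b
    rw [Matrix.mul_apply, Matrix.mul_apply, ← Equiv.sum_comp e]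
    refine Finset.sum_congr rfl fun i _ => ?_
    rw [Pool.Agent.R917.PM_apply, hTs, Matrix.submatrix_apply, Equiv.symm_apply_apply]
    rfl
  have h2 : IsUnit Ts.det := by
    have h3 := (Matrix.isUnit_iff_isUnit_det _).1 hP
    rw [h1, Matrix.det_mul] at h3
    exact isUnit_of_mul_isUnit_right h3
  refine ⟨R, Ts, Ts⁻¹, q, (Matrix.isUnit_iff_isUnit_det _).1 hR, Matrix.mul_nonsing_inv _ h2, fun i j => hT _ _, hq, h1, ?_⟩
  ext a b
  have h3 := hE a b
  have h4 : ∀ c d, riemannForm A.lam A.η (A.lam c) (A.lam d) = ((Pool.Agent.H936.SL.EM A c d : ℚ) : ℂ) := by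
    intro c d
    have h5 := A.rf_eq (Pi.single c 1) (Pi.single d 1)
    have h6 : ∀ c : Fin (2 * g), A.per (Pi.single c 1) = A.lam c := by
      intro c
      have h7 := A.per_bas c
      have h8 : A.bas c = Pi.single c 1 := Pi.basisFun_apply ℚ (Fin (2 * g)) c
      rwa [h8] at h7
    rw [h6, h6] at h5
    exact h5
  simp only [h4] at h3
  have h5 : (((R * Pool.Agent.H936.SL.EM A * Rᵀ) a b : ℚ) : ℂ) = ((q * H a b : ℚ) : ℂ) := by
    push_cast
    rw [← h3, Matrix.mul_apply]
    push_cast
    rw [Finset.sum_comm]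
    refine Finset.sum_congr rfl fun d _ => ?_
    rw [Matrix.mul_apply, Matrix.transpose_apply]
    push_cast
    rw [Finset.sum_mul]
  rw [Matrix.smul_apply, smul_eq_mul]
  exact_mod_cast h5

theorem sym_zero {n : ℕ} {Z : Matrix (Fin n) (Fin n) (PowerSeries ℚ)} : Symmetry Z 0 := by
  intro R hR
  refine Finset.sum_eq_zero fun b _ => ?_
  rw [Matrix.map_zero _ (map_zero _), Matrix.zero_mul, Matrix.zero_apply, mul_zero]

theorem sym_add {n : ℕ} {Z : Matrix (Fin n) (Fin n) (PowerSeries ℚ)} {X Y : Matrix (Fin n) (Fin n) ℂ}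
    (hX : Symmetry Z X) (hY : Symmetry Z Y) : Symmetry Z (X + Y) := by
  intro R hR
  have h1 := hX R hR
  have h2 := hY R hR
  rw [← add_zero (0 : PowerSeries ℂ)]
  nth_rewrite 1 [← h1]
  rw [← h2, ← Finset.sum_add_distrib]
  refine Finset.sum_congr rfl fun b _ => ?_
  rw [Matrix.map_add _ (map_add _), Matrix.add_mul, Matrix.add_apply, mul_add]

theorem sym_smul {n : ℕ} {Z : Matrix (Fin n) (Fin n) (PowerSeries ℚ)} (c : ℂ) {X : Matrix (Fin n) (Fin n) ℂ}
    (hX : Symmetry Z X) : Symmetry Z (c • X) := by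
  intro R hR
  have h1 := hX R hR
  have h2 : (c • X).map (PowerSeries.C (R := ℂ)) = PowerSeries.C (R := ℂ) c • X.map (PowerSeries.C (R := ℂ)) := by
    ext1 i j
    rw [Matrix.map_apply, Matrix.smul_apply, Matrix.smul_apply, Matrix.map_apply, smul_eq_mul, smul_eq_mul, map_mul]
  rw [h2, ← mul_zero (PowerSeries.C (R := ℂ) c), ← h1, Finset.mul_sum]
  refine Finset.sum_congr rfl fun b _ => ?_
  rw [Matrix.smul_mul, Matrix.smul_apply, smul_eq_mul]
  ring

theorem span_eq {n : ℕ} (𝔤 : Submodule ℚ (Matrix (Fin n) (Fin n) ℚ)) : complexSpan 𝔤 = Pool.Agent.H936.R.cx 𝔤 := by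
  unfold complexSpan Pool.Agent.H936.R.cx
  simp only [map_eq]

/-- the conditions on the monodromy algebra -/
theorem good_of {n : ℕ} {Z : Matrix (Fin n) (Fin n) (PowerSeries ℚ)} {C : Matrix (Fin n) (Fin n) ℂ}
    {H : Matrix (Fin n) (Fin n) ℚ} {𝔤 : Submodule ℚ (Matrix (Fin n) (Fin n) ℚ)} {ℰ : Set (Matrix (Fin n) (Fin n) ℚ)}
    (hd : IsUnit H.det) (h : MonodromyAlgebra Z C H 𝔤) (he : Saturated 𝔤 ℰ) : Pool.Agent.H936.R.GoodLie H 𝔤 ℰ where
  br := h.bracket
  tn := fun x hx hy => h.trace_form x hx hy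
  perf := h.perfect
  sk := by
    intro x hx
    have h1 := h.symplectic x hx
    rw [Pool.Agent.Helper880_LF.mem_spS]
    have h2 : xᵀ * H⁻¹ + H⁻¹ * x = 0 := by
      have e1 := Matrix.mul_nonsing_inv H hd
      have e2 := Matrix.nonsing_inv_mul H hd
      calc xᵀ * H⁻¹ + H⁻¹ * x = H⁻¹ * (x * H + H * xᵀ) * H⁻¹ := by
            rw [Matrix.mul_add, Matrix.add_mul, ← Matrix.mul_assoc H⁻¹ H, e2, Matrix.one_mul, Matrix.mul_assoc H⁻¹,
              Matrix.mul_assoc x, e1, Matrix.mul_one, add_comm]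
        _ = 0 := by rw [h1, Matrix.mul_zero, Matrix.zero_mul]
    rw [← Pool.Agent.Y119.HY.cm_transpose, ← Pool.Agent.Y119.HY.cm_mul, ← Pool.Agent.Y119.HY.cm_mul,
      ← Pool.Agent.Y119.HY.cm_add, h2, Pool.Agent.Y119.HY.cm_zero]
  noc := h.noncompact
  ce := he.1
  com := he.2

theorem hz_of {n : ℕ} {𝔤 : Submodule ℚ (Matrix (Fin n) (Fin n) ℚ)} {ℰ : Set (Matrix (Fin n) (Fin n) ℚ)}
    {P : Matrix (Fin n) (Fin n) ℂ} (h : Horizontal 𝔤 ℰ P) : Pool.Agent.H936.R.Hz 𝔤 ℰ P where
  he := by
    intro e he a b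
    have := h.1 e he a b
    rwa [map_eq] at this
  hg := by
    intro x hx
    have := h.2 x hx
    rwa [map_eq, span_eq] at this

/-- **The theorem.** -/
theorem result (g : ℕ) (hg : 0 < g) (T : Polynomial ℤ) (A : Fin (2 * g * (2 * g)) → Fin (2 * g * (2 * g)) → Polynomial ℤ)
    (Z : Matrix (Fin (2 * g)) (Fin (2 * g)) (PowerSeries ℚ)) (hG : GFamily T A (entries Z)) :
    ∃ G : ℕ, 1 ≤ G ∧ ∀ (C : Matrix (Fin (2 * g)) (Fin (2 * g)) ℂ) (H : Matrix (Fin (2 * g)) (Fin (2 * g)) ℚ)
      (𝔤 : Submodule ℚ (Matrix (Fin (2 * g)) (Fin (2 * g)) ℚ)) (ℰ : Set (Matrix (Fin (2 * g)) (Fin (2 * g)) ℚ)),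
      IsUnit H → Hᵀ = -H → MonodromyAlgebra Z C H 𝔤 → Saturated 𝔤 ℰ →
      -- the central fibre: an abelian variety with complex multiplication
      (∃ A₀ : AbVar g, Presents A₀ H C) → HasCM C → Horizontal 𝔤 ℰ C →
      ∀ (N D r : ℕ) (C₀ : Matrix (Fin r) (Fin r) ℂ), 0 < N → Commutative C₀ →
      ∃ E : ℕ, ∀ t : Fin N → ℕ, InWindow G E t →
      (∀ j, (∃ A : AbVar g, Presents A H (C * value Z (t j))) ∧ Horizontal 𝔤 ℰ (C * value Z (t j))) →
      Good D C₀ 𝔤 fun j => C * value Z (t j) := by
  obtain ⟨q', C', hG'⟩ := Pool.Agent.Y120.GH.gsys_of hG.ode hG.size hG.den (gal_eq hG)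
  obtain ⟨G, hG1, h⟩ := Pool.Agent.H936.R.fin_cm hg hG.T_ne hG.ode hG' (qu_eq hG.regular)
  refine ⟨G, hG1, fun C H 𝔤 ℰ hHu hHt hmon hsat hA₀ hcm hhor N D r C₀ hN hC₀ => ?_⟩
  obtain ⟨A₀, hA₀⟩ := hA₀
  have hC : IsUnit C.det := by
    obtain ⟨-, -, -, -, hC, -⟩ := hA₀
    exact (Matrix.isUnit_iff_isUnit_det _).1 hC
  have hHd : IsUnit H.det := (Matrix.isUnit_iff_isUnit_det _).1 hHu
  obtain ⟨R₀, hR₀⟩ := pres_of hA₀
  obtain ⟨X, hXs, hX⟩ := hcm
  obtain ⟨K₀, S₀, hK₀, hS₀, hm₀, hc₀⟩ := hC₀
  have hS₀' := Pool.Agent.Y123.ST.subT_iff.1 hS₀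
  have hsym : ∀ Y ∈ Pool.Agent.H936.R.cx 𝔤, Symmetry Z (C⁻¹ * Y * C) := by
    intro Y hY
    refine Submodule.span_induction (p := fun Y _ => Symmetry Z (C⁻¹ * Y * C)) ?_ ?_ ?_ ?_ hY
    · rintro _ ⟨X, hX, rfl⟩
      rw [← map_eq]
      exact hmon.symmetry X hX
    · rw [Matrix.mul_zero, Matrix.zero_mul]
      exact sym_zero
    · intro a b _ _ ha hb
      rw [Matrix.mul_add, Matrix.add_mul]
      exact sym_add ha hb
    · intro c a _ ha
      rw [Matrix.mul_smul, Matrix.smul_mul]
      exact sym_smul c ha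
  obtain ⟨E, hE⟩ := h C H 𝔤 ℰ hC hHt hHd (good_of hHd hmon hsat) (fun Y hY => sym_inf (hsym Y hY)) A₀ R₀ hR₀
    (hz_of hhor) X hXs (by
      intro a b
      have := hX a b
      rwa [map_eq] at this) N D r C₀ hN
    ((Matrix.isUnit_iff_isUnit_det _).1 (hS₀'.isUnit _ hm₀)).ne_zero
    (Pool.Agent.H936.R.comm_of hK₀ hS₀' hm₀ fun x hx z hz => hc₀ x hx C₀ hm₀ z hz)
  refine ⟨E, fun t ht hfib K hK hKD S hS hSr hmem => ?_⟩
  have hS' := Pool.Agent.Y123.ST.subT_iff.1 hS
  have hL := hE t ht.1 ht.2.1 ht.2.2 (fun j => by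
      obtain ⟨⟨A, hA⟩, hz⟩ := hfib j
      obtain ⟨R, hR⟩ := pres_of hA
      exact ⟨⟨A, R, hR⟩, hz_of hz⟩) K hK hKD S hS' hSr hmem
  intro Y hY x hx
  exact Pool.Agent.H936.R.exp_of_cx hS' hL Y (fun j => by
    rw [← span_eq]
    exact hY j) hx

end Pool.Agent.Results.MP_5591bc_ag.NearComplexMultiplication
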